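import Pool.Agent.K3h64.CR.Step

set_option autoImplicit false

open Set Filter Topology MeasureTheory Metric

namespace Pool.Agent.K3h64.CR

open Pool.Agent.K3h20.CR

/-- the derivative of the next point of the orbit -/
theorem next_deriv {r g : ℂ → ℂ} {n : ℕ} (hn : 1 ≤ n) {k : ℕ} {x D : ℂ}
    (hD : HasDerivAt (fun t => orb r n t k) D x)
    (hr : HasDerivAt r (g (orb r n x k) * r (orb r n x k)) (orb r n x k)) :
    HasDerivAt (fun t => orb r n t (k + 1))
      (r (orb r n x k) ^ n + x * (n * r (orb r n x k) ^ n * g (orb r n x k)) * D) x := by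
  have h1 : HasDerivAt (fun t => r (orb r n t k)) (g (orb r n x k) * r (orb r n x k) * D) x :=
    HasDerivAt.comp x hr hD
  have h2 := (hasDerivAt_id x).mul (h1.pow n)
  have e1 : (fun t => orb r n t (k + 1)) = (id * (fun t => r (orb r n t k)) ^ n) := by
    funext t; rfl
  rw [e1]
  refine h2.congr_deriv ?_
  have e3 : ((fun t => r (orb r n t k)) ^ n) x = r (orb r n x k) ^ n := rfl
  rw [e3]
  obtain ⟨m, rfl⟩ : ∃ m, n = m + 1 := ⟨n - 1, by omega⟩
  simp only [Nat.add_sub_cancel, id]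
  ring

/-- the derivative of the critical orbit with respect to the parameter -/
noncomputable def dq (c : ℂ) : ℕ → ℂ
  | 0 => 1
  | j + 1 => 2 * qo c j * dq c j + 1

theorem dq_deriv (c : ℂ) (j : ℕ) : HasDerivAt (fun t => qo t j) (dq c j) c := by
  induction j with
  | zero => exact hasDerivAt_id c
  | succ j ih =>
    have h := (ih.pow 2).add (hasDerivAt_id c)
    refine h.congr_deriv ?_
    simp [dq]

theorem bound (K : ℝ) (hK : 0 ≤ K) (j : ℕ) : ∃ L : ℝ, 0 ≤ L ∧ ∀ c : ℂ, ‖c‖ ≤ K →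
    ‖qo c j‖ ≤ L ∧ ‖dq c j‖ ≤ L := by
  induction j with
  | zero => exact ⟨K + 1, by linarith, fun c hc => ⟨by simp only [qo]; linarith,
      by simp only [dq, norm_one]; linarith⟩⟩
  | succ j ih =>
    obtain ⟨L, hL0, hL⟩ := ih
    refine ⟨2 * L ^ 2 + 1 + K, by positivity, fun c hc => ?_⟩
    obtain ⟨h1, h2⟩ := hL c hc
    constructor
    · simp only [qo]
      refine (norm_add_le _ _).trans ?_
      rw [norm_pow]
      have : ‖qo c j‖ ^ 2 ≤ L ^ 2 := by gcongr
      nlinarith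
    · simp only [dq]
      refine (norm_add_le _ _).trans ?_
      rw [norm_mul, norm_mul, norm_one]
      have : ‖(2 : ℂ)‖ = 2 := by simp
      rw [this]
      have h3 : 2 * ‖qo c j‖ * ‖dq c j‖ ≤ 2 * L * L := by gcongr
      nlinarith

theorem t_conv : St_conv := by
  intro r g y a d B hN K j
  rcases lt_or_ge K 0 with hK | hK
  · intro η _
    exact ⟨0, fun n _ c hc => absurd (norm_nonneg c) (by linarith)⟩
  suffices H : ∀ η : ℝ, 0 < η → ∃ n₀ : ℕ, ∀ n : ℕ, n₀ ≤ n → ∀ c : ℂ, ‖c‖ ≤ K →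
      ‖n * (a * y) * (orb r n (y + c / (n * (a * y))) j - y) - qo c j‖ ≤ η ∧
      ∃ D : ℂ, HasDerivAt (fun t => orb r n t j) D (y + c / (n * (a * y))) ∧ ‖D - dq c j‖ ≤ η by
    intro η hη
    obtain ⟨n₀, hn₀⟩ := H η hη
    refine ⟨n₀, fun n hn c hc => ?_⟩
    rw [(dq_deriv c j).deriv]
    exact hn₀ n hn c hc
  induction j with
  | zero =>
    intro η hη
    refine ⟨1, fun n hn c hc => ⟨?_, 1, hasDerivAt_id _, by simp [dq, hη.le]⟩⟩
    have hA0 : (n : ℂ) * (a * y) ≠ 0 :=
      mul_ne_zero (by exact_mod_cast (by omega : n ≠ 0)) (mul_ne_zero hN.ha hN.hy)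
    simp only [orb, qo]
    rw [add_sub_cancel_left, mul_div_cancel₀ _ hA0, sub_self, norm_zero]
    exact hη.le
  | succ j ih =>
    intro η hη
    obtain ⟨L, hL0, hL⟩ := bound K hK j
    obtain ⟨η', hη'⟩ : ∃ η' : ℝ, η' = min 1 (η / (6 * (L + 1))) := ⟨_, rfl⟩
    have hη'0 : 0 < η' := by rw [hη']; positivity
    have hη'1 : η' ≤ 1 := by rw [hη']; exact min_le_left _ _
    have hη'2 : η' * (6 * (L + 1)) ≤ η := by
      have : η' ≤ η / (6 * (L + 1)) := by rw [hη']; exact min_le_right _ _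
      rwa [le_div_iff₀ (by positivity)] at this
    obtain ⟨n₁, h₁⟩ := ih η' hη'0
    obtain ⟨n₂, h₂⟩ := t_step r g y a d B hN (max K (L + 1)) η' hη'0
    refine ⟨max (max n₁ n₂) 1, fun n hn c hc => ?_⟩
    have hn1 : n₁ ≤ n := le_trans (le_trans (le_max_left _ _) (le_max_left _ _)) hn
    have hn2 : n₂ ≤ n := le_trans (le_trans (le_max_right _ _) (le_max_left _ _)) hn
    have hn3 : 1 ≤ n := le_trans (le_max_right _ _) hn
    obtain ⟨i1, D, i2, i3⟩ := h₁ n hn1 c hc
    obtain ⟨q1, q2⟩ := hL c hc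
    have hA0 : (n : ℂ) * (a * y) ≠ 0 :=
      mul_ne_zero (by exact_mod_cast (by omega : n ≠ 0)) (mul_ne_zero hN.ha hN.hy)
    obtain ⟨A, hA⟩ : ∃ A : ℂ, A = n * (a * y) := ⟨_, rfl⟩
    rw [← hA] at i1 i2 hA0 ⊢
    obtain ⟨x, hx⟩ : ∃ x : ℂ, x = y + c / A := ⟨_, rfl⟩
    rw [← hx] at i1 i2 ⊢
    obtain ⟨V, hV⟩ : ∃ V : ℂ, V = A * (orb r n x j - y) := ⟨_, rfl⟩
    rw [← hV] at i1
    have hw : orb r n x j = y + V / A := by rw [hV, mul_div_cancel_left₀ _ hA0]; ring
    have hVn : ‖V‖ ≤ L + 1 := by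
      have e : V = (V - qo c j) + qo c j := by ring
      rw [e]
      refine (norm_add_le _ _).trans ?_
      linarith
    have hDn : ‖D‖ ≤ L + 1 := by
      have e : D = (D - dq c j) + dq c j := by ring
      rw [e]
      refine (norm_add_le _ _).trans ?_
      linarith
    obtain ⟨s1, s2, s3, s4, s5⟩ := h₂ n hn2 c V (hc.trans (le_max_left _ _))
      (hVn.trans (le_max_right _ _))
    rw [← hA] at s1 s2 s3 s4 s5
    rw [← hx, ← hw] at s3 s4
    rw [← hw] at s2 s5
    have e1 : orb r n x (j + 1) = x * r (orb r n x j) ^ n := rfl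
    refine ⟨?_, r (orb r n x j) ^ n + x * (n * r (orb r n x j) ^ n * g (orb r n x j)) * D,
      next_deriv hn3 i2 ?_, ?_⟩
    · rw [e1]
      have e2 : A * (x * r (orb r n x j) ^ n - y) - qo c (j + 1) =
          (A * (x * r (orb r n x j) ^ n - y) - (V ^ 2 + c)) + (V - qo c j) * (V + qo c j) := by
        simp only [qo]; ring
      rw [e2]
      refine (norm_add_le _ _).trans ?_
      rw [norm_mul]
      have h3 : ‖V + qo c j‖ ≤ 2 * L + 1 := (norm_add_le _ _).trans (by linarith)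
      have h4 : ‖V - qo c j‖ * ‖V + qo c j‖ ≤ η' * (2 * L + 1) := by gcongr
      nlinarith
    · rw [hw]
      exact hN.r_der _ s1
    · have e2 : r (orb r n x j) ^ n + x * (n * r (orb r n x j) ^ n * g (orb r n x j)) * D -
          dq c (j + 1) = (r (orb r n x j) ^ n - 1) +
          (x * (n * r (orb r n x j) ^ n * g (orb r n x j)) - 2 * V) * D +
          (2 * (V - qo c j) * D + 2 * qo c j * (D - dq c j)) := by
        simp only [dq]; ring
      rw [e2]
      refine (norm_add₃_le).trans ?_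
      have h3 : ‖(x * (n * r (orb r n x j) ^ n * g (orb r n x j)) - 2 * V) * D‖ ≤
          η' * (L + 1) := by rw [norm_mul]; gcongr
      have h4 : ‖2 * (V - qo c j) * D + 2 * qo c j * (D - dq c j)‖ ≤
          2 * η' * (L + 1) + 2 * L * η' := by
        refine (norm_add_le _ _).trans ?_
        rw [norm_mul, norm_mul, norm_mul, norm_mul]
        have : ‖(2 : ℂ)‖ = 2 := by simp
        rw [this]
        gcongr
      nlinarith

end Pool.Agent.K3h64.CR
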