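import Pool.Agent.K3h20.CR.Stm2

set_option autoImplicit false

open Set Filter Topology MeasureTheory Metric

namespace Pool.Agent.K3h64.CR

theorem t_meas : Pool.Agent.K3h20.CR.St_meas := by
  intro N E R hE hN η hη
  set A : Set ℂ := {c | ∃ δ : ℝ, 0 < δ ∧
    Tendsto (fun n => volume (E n ∩ closedBall c δ)) atTop (𝓝 0)} with hA
  have hc : ∀ c : A, ∃ δ : ℝ, 0 < δ ∧
    Tendsto (fun n => volume (E n ∩ closedBall (c : ℂ) δ)) atTop (𝓝 0) := fun c => c.2
  choose δ hδ0 hδ using hc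
  set O : Set ℂ := ⋃ c : A, ball (c : ℂ) (δ c) with hO
  have hOo : IsOpen O := isOpen_iUnion fun c => isOpen_ball
  have hAO : A ⊆ O := fun c hcA => mem_iUnion.2 ⟨⟨c, hcA⟩, mem_ball_self (hδ0 _)⟩
  set K : Set ℂ := closedBall 0 R \ O with hK
  have hKc : IsCompact K := (isCompact_closedBall 0 R).diff hOo
  have hKN : volume K ≤ volume N := by
    have h1 : volume {c : ℂ | ¬ (c ∉ N → c ∈ A)} = 0 := hN
    have h2 : K ⊆ N ∪ {c : ℂ | ¬ (c ∉ N → c ∈ A)} := by
      intro c hcK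
      by_cases h : c ∈ N
      · exact Or.inl h
      · right
        intro h3
        exact hcK.2 (hAO (h3 h))
    calc volume K ≤ volume (N ∪ {c : ℂ | ¬ (c ∉ N → c ∈ A)}) := measure_mono h2
      _ ≤ volume N + volume {c : ℂ | ¬ (c ∉ N → c ∈ A)} := measure_union_le _ _
      _ = volume N := by rw [h1, add_zero]
  obtain ⟨V, hKV, hVo, hV⟩ := hKc.exists_isOpen_lt_add (μ := volume)
    (ε := ENNReal.ofReal (η / 2)) (by simpa using hη)
  have hL : IsCompact (closedBall (0 : ℂ) R \ V) := (isCompact_closedBall 0 R).diff hVo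
  have hLO : closedBall (0 : ℂ) R \ V ⊆ ⋃ c : A, ball (c : ℂ) (δ c) := by
    intro c hcL
    by_contra h
    exact hcL.2 (hKV ⟨hcL.1, h⟩)
  obtain ⟨t, ht⟩ := hL.elim_finite_subcover _ (fun c => isOpen_ball) hLO
  have hsum : Tendsto (fun n => ∑ c ∈ t, volume (E n ∩ closedBall (c : ℂ) (δ c))) atTop (𝓝 0) := by
    have := tendsto_finset_sum t (fun c _ => hδ c)
    simpa using this
  have hev := hsum.eventually (gt_mem_nhds (show (0 : ENNReal) < ENNReal.ofReal (η / 2) by
    simpa using hη))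
  obtain ⟨n₀, hn₀⟩ := eventually_atTop.1 hev
  refine ⟨n₀, fun n hn => ?_⟩
  have h1 : E n ⊆ V ∪ ⋃ c ∈ t, (E n ∩ closedBall (c : ℂ) (δ c)) := by
    intro z hz
    by_cases hzV : z ∈ V
    · exact Or.inl hzV
    · right
      have h2 := ht ⟨hE n hz, hzV⟩
      rw [mem_iUnion₂] at h2 ⊢
      obtain ⟨c, hct, hzc⟩ := h2
      exact ⟨c, hct, hz, ball_subset_closedBall hzc⟩
  calc volume (E n) ≤ volume (V ∪ ⋃ c ∈ t, (E n ∩ closedBall (c : ℂ) (δ c))) := measure_mono h1
    _ ≤ volume V + volume (⋃ c ∈ t, (E n ∩ closedBall (c : ℂ) (δ c))) := measure_union_le _ _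
    _ ≤ volume V + ∑ c ∈ t, volume (E n ∩ closedBall (c : ℂ) (δ c)) := by
        gcongr
        exact measure_biUnion_finset_le _ _
    _ ≤ (volume N + ENNReal.ofReal (η / 2)) + ENNReal.ofReal (η / 2) := by
        gcongr
        · exact hV.le.trans (by gcongr)
        · exact (hn₀ n hn).le
    _ = volume N + ENNReal.ofReal η := by
        rw [add_assoc, ← ENNReal.ofReal_add (by positivity) (by positivity), add_halves]

end Pool.Agent.K3h64.CR
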