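import Pool.Agent.K3h20.CR.Stm2
import Pool.Agent.K3h76.CR.NzMain

/-!
# Project CR2: brick NZ2 (the orbit near the critical point, from the index `J` on); adapted from
`Pool.Agent.K3h76.CR.NzMain`.
-/

set_option autoImplicit false

open Set Filter Topology MeasureTheory Metric

namespace Pool.Agent.K3h64.CR

open Pool.Agent.K3h20.CR Pool.Agent.K3h76.CR

/-- one step of the recursion, with another additive term -/
theorem step3 (u0 t0 v w y a rr gg : ℂ) (n j : ℕ) (B E : ℝ) (hB : 1 ≤ B) (ha : a ≠ 0) (hy : y ≠ 0)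
    (hr : ‖rr - 1 - a * v ^ 2‖ ≤ B * ‖v‖ ^ 3) (hg : ‖gg - 2 * a * v‖ ≤ B * ‖v‖ ^ 2)
    (h0 : ‖u0‖ ≤ ‖v‖) (ht : ‖t0‖ ≤ ‖v‖) (hv : 0 < ‖v‖) (hv1 : ‖v‖ ≤ 1) (hnv : 1 ≤ n * ‖v‖)
    (hK : (‖a‖ + B) * (n * ‖v‖ ^ 2) ≤ 1 / 2)
    (hM : (1 + ‖a‖ + (‖y‖ + 1) * (B + (‖a‖ + B) ^ 2)) * (1 / (n * ‖v‖) + n * ‖v‖ ^ 2)
      ≤ ‖a‖ * ‖y‖ / 2) (hE0 : 0 ≤ E) (hE : E ≤ 1) (hw : ‖w - 2 ^ j * v‖ ≤ E * 2 ^ j * ‖v‖) :
    ‖a‖ * ‖y‖ / 2 * (n * ‖v‖ ^ 2) ≤ ‖(y + u0) * rr ^ n - y‖ ∧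
    ‖(y + u0) * rr ^ n - y‖ ≤ 3 / 2 * (‖a‖ * ‖y‖) * (n * ‖v‖ ^ 2) ∧
    ‖(t0 * rr ^ n + (y + u0) * n * rr ^ n * gg * w) - 2 ^ (j + 1) * ((y + u0) * rr ^ n - y)‖ ≤
      (E + (2 / (‖a‖ * ‖y‖) * (2 + (2 * ‖a‖ + (‖y‖ + 1) * (4 * (‖a‖ + B) * ‖a‖ + 2 * B)) +
        2 * (1 + ‖a‖ + (‖y‖ + 1) * (B + (‖a‖ + B) ^ 2))) + 8 / (‖a‖ * ‖y‖)) *
        (1 / (n * ‖v‖) + n * ‖v‖ ^ 2)) * 2 ^ (j + 1) * ‖(y + u0) * rr ^ n - y‖ := by
  obtain ⟨b1, -, -⟩ := step1 u0 v y a rr gg n B hB hr hg h0 hv hv1 hnv hK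
  obtain ⟨s1, s2, s3⟩ := step2 u0 v w y a rr gg n j B E hB ha hy hr hg h0 hv hv1 hnv hK hM hE0 hE hw
  refine ⟨s1, s2, ?_⟩
  have hn0 : (0 : ℝ) < n := by
    by_contra hc
    have : (n : ℝ) ≤ 0 := not_lt.1 hc
    nlinarith
  obtain ⟨A, hA⟩ : ∃ A : ℝ, A = ‖a‖ * ‖y‖ := ⟨_, rfl⟩
  have hAp : 0 < A := by rw [hA]; exact mul_pos (norm_pos_iff.2 ha) (norm_pos_iff.2 hy)
  obtain ⟨X, hX⟩ : ∃ X : ℝ, X = n * ‖v‖ ^ 2 := ⟨_, rfl⟩
  obtain ⟨e, he⟩ : ∃ e : ℝ, e = 1 / (n * ‖v‖) + X := ⟨_, rfl⟩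
  obtain ⟨u', hu'⟩ : ∃ u' : ℂ, u' = (y + u0) * rr ^ n - y := ⟨_, rfl⟩
  rw [← hu', ← hX, ← he, ← hA] at s3
  rw [← hu', ← hX, ← hA] at s1
  rw [← hu', ← hX, ← he, ← hA]
  have hX0 : 0 < X := by rw [hX]; positivity
  have hYpos : 0 < 1 / (n * ‖v‖) := by positivity
  have he0 : 0 < e := by rw [he]; linarith
  have hXY : X * (1 / (n * ‖v‖)) = ‖v‖ := by
    rw [hX]; field_simp
  have hsXe : ‖v‖ ≤ X * e := by
    rw [he, mul_add, hXY]; nlinarith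
  have t6 : X * e ≤ 2 / A * e * ‖u'‖ := by
    have h1 : X ≤ 2 / A * ‖u'‖ := by
      rw [div_mul_eq_mul_div, le_div_iff₀ hAp]; linarith
    calc X * e ≤ (2 / A * ‖u'‖) * e := mul_le_mul_of_nonneg_right h1 he0.le
      _ = _ := by ring
  have t7 : ‖(t0 - u0) * rr ^ n‖ ≤ 8 / A * e * ‖u'‖ := by
    rw [norm_mul]
    have h1 : ‖t0 - u0‖ ≤ 2 * ‖v‖ := (norm_sub_le _ _).trans (by linarith)
    calc ‖t0 - u0‖ * ‖rr ^ n‖ ≤ 2 * ‖v‖ * 2 := mul_le_mul h1 b1 (norm_nonneg _) (by positivity)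
      _ ≤ 4 * (2 / A * e * ‖u'‖) := by linarith
      _ = _ := by ring
  have h2 : (1 : ℝ) ≤ 2 ^ (j + 1) := one_le_pow₀ (by norm_num)
  have h3 : 0 ≤ 8 / A * e * ‖u'‖ := by positivity
  have e1 : (t0 * rr ^ n + (y + u0) * n * rr ^ n * gg * w) - 2 ^ (j + 1) * u' =
      ((u0 * rr ^ n + (y + u0) * n * rr ^ n * gg * w) - 2 ^ (j + 1) * u') + (t0 - u0) * rr ^ n := by
    ring
  rw [e1]
  refine (norm_add_le _ _).trans ((add_le_add s3 t7).trans ?_)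
  have h4 : 8 / A * e * ‖u'‖ ≤ 8 / A * e * ‖u'‖ * 2 ^ (j + 1) := le_mul_of_one_le_right h3 h2
  refine (add_le_add le_rfl h4).trans (le_of_eq ?_)
  ring

theorem t_nz2 : St_nz2 := by
  intro r g y a d B hN K₀ μ hK₀ hμ
  obtain ⟨hd, hB, hy, ha, hreq, hrder, hgeq⟩ := hN
  have ha0 : 0 < ‖a‖ := norm_pos_iff.2 ha
  have hy0 : 0 < ‖y‖ := norm_pos_iff.2 hy
  obtain ⟨K, hK⟩ : ∃ K : ℝ, K = ‖a‖ + B := ⟨_, rfl⟩
  obtain ⟨M1, hM1⟩ : ∃ M1 : ℝ, M1 = 1 + ‖a‖ + (‖y‖ + 1) * (B + (‖a‖ + B) ^ 2) := ⟨_, rfl⟩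
  obtain ⟨M2, hM2⟩ : ∃ M2 : ℝ, M2 = 2 * ‖a‖ + (‖y‖ + 1) * (4 * (‖a‖ + B) * ‖a‖ + 2 * B) :=
    ⟨_, rfl⟩
  obtain ⟨A, hA⟩ : ∃ A : ℝ, A = ‖a‖ * ‖y‖ := ⟨_, rfl⟩
  have hAp : 0 < A := by rw [hA]; positivity
  have hKp : 0 < K := by rw [hK]; positivity
  have hM1p : 0 < M1 := by rw [hM1]; positivity
  have hM2p : 0 < M2 := by rw [hM2]; positivity
  obtain ⟨B3, hB3⟩ : ∃ B3 : ℝ, B3 = 2 / A * (2 + M2 + 2 * M1) + 8 / A := ⟨_, rfl⟩
  have hB3p : 0 < B3 := by rw [hB3]; positivity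
  obtain ⟨η, hη, hη1, hηd, hηK, hηM, hηA, hημ, hηB⟩ :=
    ex_eta d K M1 A μ B3 (min μ 1) hd hKp hM1p hAp hμ hB3p (by positivity)
  refine ⟨max (1 / η) (max K₀ 1), η, by positivity, hη, 1, ?_⟩
  intro n hn x J D₀ hxK hx hD₀ hD₀n
  have hn0 : (0 : ℝ) < n := by exact_mod_cast hn
  obtain ⟨v₀, hv₀⟩ : ∃ v₀ : ℂ, v₀ = orb r n x J - y := ⟨_, rfl⟩
  rw [← hv₀] at hx ⊢
  have hx' : 1 / η ≤ n * ‖v₀‖ := by
    rw [div_le_iff₀ hn0] at hx
    have := le_max_left (1 / η) (max K₀ 1)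
    linarith
  have hu0 : 0 < ‖v₀‖ := by
    have : 0 < n * ‖v₀‖ := lt_of_lt_of_le (by positivity) hx'
    exact pos_of_mul_pos_right this hn0.le
  have hxy0 : ‖x - y‖ ≤ ‖v₀‖ := by
    refine hxK.trans (le_trans ?_ hx)
    have : K₀ ≤ max (1 / η) (max K₀ 1) := (le_max_left _ _).trans (le_max_right _ _)
    gcongr
  have hD1 : 1 ≤ ‖D₀‖ := by
    refine le_trans ?_ hD₀n
    exact (le_max_right _ _).trans (le_max_right _ _)
  have hD0 : D₀ ≠ 0 := by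
    intro h; rw [h, norm_zero] at hD1; linarith
  have ht0 : ‖v₀ / D₀‖ ≤ ‖v₀‖ := by
    rw [norm_div]
    exact div_le_self hu0.le hD1
  have key : ∀ k : ℕ, (∀ j < k, ‖orb r n x (J + j) - y‖ ≤ η / Real.sqrt n) →
      (∀ j < k, 2 * ‖orb r n x (J + j) - y‖ ≤ ‖orb r n x (J + j + 1) - y‖ ∧
        ‖orb r n x (J + j + 1) - y‖ ≤ μ) ∧ ‖v₀‖ ≤ ‖orb r n x (J + k) - y‖ ∧
      ∃ (T Q : ℝ) (D : ℂ), 0 ≤ T ∧ 0 ≤ Q ∧
        T + 2 / (n * ‖orb r n x (J + k) - y‖) ≤ 2 / (n * ‖v₀‖) ∧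
        Q ≤ 1 / 3 * (n * ‖orb r n x (J + k) - y‖ ^ 2) ∧ Q ≤ 4 / 3 * η ∧
        HasDerivAt (fun t => orb r n t (J + k)) D x ∧
        ‖v₀ * D - 2 ^ k * D₀ * (orb r n x (J + k) - y)‖ ≤
          (B3 * (T + Q)) * 2 ^ k * ‖D₀‖ * ‖orb r n x (J + k) - y‖ := by
    intro k
    induction k with
    | zero =>
      intro _
      refine ⟨by simp, ?_, 0, 0, D₀, le_rfl, le_rfl, ?_, ?_, by positivity, ?_, ?_⟩
      · rw [add_zero, ← hv₀]
      · rw [add_zero, ← hv₀, zero_add]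
      · positivity
      · rw [add_zero]; exact hD₀
      · rw [add_zero, ← hv₀, pow_zero, one_mul, mul_comm, sub_self, norm_zero]
        simp
    | succ k ih =>
      intro hj
      obtain ⟨i1, i2, T, Q, D, hT, hQ, hTb, hQb, hQη, hD, hq⟩ :=
        ih (fun j hjk => hj j (by omega))
      obtain ⟨v, hv⟩ : ∃ v : ℂ, v = orb r n x (J + k) - y := ⟨_, rfl⟩
      have horb : orb r n x (J + k) = y + v := by rw [hv]; ring
      rw [← hv] at i2 hTb hQb hq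
      have hvj : ‖v‖ ≤ η / Real.sqrt n := by rw [hv]; exact hj k (by omega)
      have hv0 : 0 < ‖v‖ := lt_of_lt_of_le hu0 i2
      have hsq : (n : ℝ) * ‖v‖ ^ 2 ≤ η ^ 2 := by
        have h1 : ‖v‖ ^ 2 ≤ (η / Real.sqrt n) ^ 2 := pow_le_pow_left₀ hv0.le hvj 2
        rw [div_pow, Real.sq_sqrt hn0.le] at h1
        calc (n : ℝ) * ‖v‖ ^ 2 ≤ n * (η ^ 2 / n) := mul_le_mul_of_nonneg_left h1 hn0.le
          _ = η ^ 2 := by field_simp
      have hη2 : η ^ 2 ≤ η := by nlinarith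
      have hvη : ‖v‖ ≤ η := by
        refine hvj.trans (div_le_self hη.le ?_)
        rw [Real.one_le_sqrt]
        exact_mod_cast hn
      have hnv : 1 / η ≤ n * ‖v‖ := hx'.trans (mul_le_mul_of_nonneg_left i2 hn0.le)
      have h1η : 1 ≤ 1 / η := by rw [le_div_iff₀ hη]; linarith
      have hnv1 : 1 ≤ n * ‖v‖ := h1η.trans hnv
      have hinv : 1 / (n * ‖v‖) ≤ η := by
        rw [div_le_iff₀ (by positivity)]
        rw [div_le_iff₀ hη] at hnv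
        linarith
      have hinv0 : 0 < 1 / (n * ‖v‖) := by positivity
      have he : 1 / (n * ‖v‖) + n * ‖v‖ ^ 2 ≤ 2 * η := by linarith
      have hTη : T ≤ 2 * η := by
        have h1 : 2 / (n * ‖v₀‖) ≤ 2 * η := by
          rw [div_le_iff₀ (by positivity)]
          rw [div_le_iff₀ hη] at hx'
          linarith
        have h2 : 0 ≤ 2 / (n * ‖v‖) := by positivity
        linarith
      have hE : B3 * (T + Q) ≤ 1 := by
        have h1 : B3 * (T + Q) ≤ B3 * (2 * η + 4 / 3 * η) :=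
          mul_le_mul_of_nonneg_left (by linarith) hB3p.le
        exact h1.trans (hηB.trans (min_le_right _ _))
      have hE0 : 0 ≤ B3 * (T + Q) := by positivity
      have hq' : ‖v₀ * D / D₀ - 2 ^ k * v‖ ≤ B3 * (T + Q) * 2 ^ k * ‖v‖ := by
        have e0 : v₀ * D / D₀ - 2 ^ k * v = (v₀ * D - 2 ^ k * D₀ * v) / D₀ := by
          field_simp
        rw [e0, norm_div, div_le_iff₀ (norm_pos_iff.2 hD0)]
        refine hq.trans (le_of_eq ?_)
        ring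
      obtain ⟨s1, s2, s3⟩ := step3 (x - y) (v₀ / D₀) v (v₀ * D / D₀) y a (r (y + v)) (g (y + v))
        n k B (B3 * (T + Q)) hB ha hy (hreq v (hvη.trans hηd)) (hgeq v (hvη.trans hηd))
        (hxy0.trans i2) (ht0.trans i2) hv0 (hvη.trans hη1) hnv1
        (by
          rw [← hK]
          calc K * (n * ‖v‖ ^ 2) ≤ K * η := mul_le_mul_of_nonneg_left (by linarith) hKp.le
            _ ≤ 1 / 2 := hηK)
        (by
          rw [← hM1, ← hA]
          calc M1 * (1 / (n * ‖v‖) + n * ‖v‖ ^ 2) ≤ M1 * (2 * η) :=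
                mul_le_mul_of_nonneg_left he hM1p.le
            _ ≤ A / 2 := hηM)
        hE0 hE hq'
      rw [← hA, ← hM1, ← hM2, ← hB3] at s3
      rw [← hA] at s1 s2
      have hxy : y + (x - y) = x := by ring
      rw [hxy] at s1 s2 s3
      have horb' : orb r n x (J + k + 1) - y = x * r (y + v) ^ n - y := by
        simp only [orb]; rw [horb]
      rw [← add_assoc]
      have g1 : 2 * ‖v‖ ≤ ‖orb r n x (J + k + 1) - y‖ := by
        rw [horb']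
        refine le_trans ?_ s1
        have h1 : 4 / A ≤ n * ‖v‖ := by
          refine le_trans ?_ hnv
          rw [div_le_div_iff₀ hAp hη]; linarith
        rw [div_le_iff₀ hAp] at h1
        have h2 : 4 * ‖v‖ ≤ (n * ‖v‖ * A) * ‖v‖ := mul_le_mul_of_nonneg_right h1 hv0.le
        calc 2 * ‖v‖ = 1 / 2 * (4 * ‖v‖) := by ring
          _ ≤ 1 / 2 * ((n * ‖v‖ * A) * ‖v‖) := by linarith
          _ = _ := by ring
      have g2 : ‖orb r n x (J + k + 1) - y‖ ≤ μ := by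
        rw [horb']
        refine s2.trans (le_trans ?_ hημ)
        exact mul_le_mul_of_nonneg_left (by linarith) (by positivity)
      have g0 : 0 < ‖orb r n x (J + k + 1) - y‖ := by linarith
      refine ⟨?_, by linarith, T + 1 / (n * ‖v‖), Q + n * ‖v‖ ^ 2,
        r (y + v) ^ n + x * (n * r (y + v) ^ (n - 1) * (g (y + v) * r (y + v) * D)),
        by positivity, by positivity, ?_, ?_, ?_, ?_, ?_⟩
      · intro j hjk
        rcases Nat.lt_succ_iff_lt_or_eq.1 hjk with h | h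
        · exact i1 j h
        · subst h
          rw [← hv]
          exact ⟨g1, g2⟩
      · have h1 : 2 / (n * ‖orb r n x (J + k + 1) - y‖) ≤ 1 / (n * ‖v‖) := by
          rw [div_le_div_iff₀ (by positivity) (by positivity)]
          have : (n : ℝ) * (2 * ‖v‖) ≤ n * ‖orb r n x (J + k + 1) - y‖ :=
            mul_le_mul_of_nonneg_left g1 hn0.le
          linarith
        have h2 : 2 / (n * ‖v‖) = 1 / (n * ‖v‖) + 1 / (n * ‖v‖) := by ring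
        linarith
      · have h1 : (2 * ‖v‖) ^ 2 ≤ ‖orb r n x (J + k + 1) - y‖ ^ 2 :=
          pow_le_pow_left₀ (by positivity) g1 2
        have h2 : (n : ℝ) * (2 * ‖v‖) ^ 2 ≤ n * ‖orb r n x (J + k + 1) - y‖ ^ 2 :=
          mul_le_mul_of_nonneg_left h1 hn0.le
        linarith
      · linarith
      · have e1 : (fun t => orb r n t (J + k + 1)) = fun t => t * r (orb r n t (J + k)) ^ n := by
          funext t; rfl
        rw [e1]
        have hr1 : HasDerivAt r (g (y + v) * r (y + v)) (orb r n x (J + k)) := by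
          rw [horb]; exact hrder v (hvη.trans hηd)
        have hr2 : HasDerivAt (fun t => r (orb r n t (J + k))) (g (y + v) * r (y + v) * D) x :=
          HasDerivAt.comp x hr1 hD
        have hr3 := hr2.fun_pow n
        have hr4 := (hasDerivAt_id x).fun_mul hr3
        simp only [id, horb, one_mul] at hr4
        exact hr4
      · rw [horb']
        have e1 : v₀ * (r (y + v) ^ n
              + x * (n * r (y + v) ^ (n - 1) * (g (y + v) * r (y + v) * D))) -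
              2 ^ (k + 1) * D₀ * (x * r (y + v) ^ n - y)
            = D₀ * ((v₀ / D₀ * r (y + v) ^ n + x * n * r (y + v) ^ n * g (y + v) * (v₀ * D / D₀)) -
              2 ^ (k + 1) * (x * r (y + v) ^ n - y)) := by
          have e2 : r (y + v) ^ n = r (y + v) ^ (n - 1) * r (y + v) := by
            rw [← pow_succ]; congr 1; omega
          rw [e2]; field_simp
        rw [e1, norm_mul]
        refine (mul_le_mul_of_nonneg_left s3 (norm_nonneg _)).trans (le_of_eq ?_)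
        ring
  intro k hk
  obtain ⟨k1, k2, T, Q, D, hT, hQ, hTb, hQb, hQη, hD, hq⟩ := key k hk
  refine ⟨k1, D, hD, hq.trans ?_⟩
  have hTη : T ≤ 2 * η := by
    have h1 : 2 / (n * ‖v₀‖) ≤ 2 * η := by
      rw [div_le_iff₀ (by positivity)]
      rw [div_le_iff₀ hη] at hx'
      linarith
    have h2 : 0 ≤ 2 / (n * ‖orb r n x (J + k) - y‖) := by positivity
    linarith
  have hE : B3 * (T + Q) ≤ μ := by
    have h1 : B3 * (T + Q) ≤ B3 * (2 * η + 4 / 3 * η) :=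
      mul_le_mul_of_nonneg_left (by linarith) hB3p.le
    exact h1.trans (hηB.trans (min_le_left _ _))
  exact mul_le_mul_of_nonneg_right (mul_le_mul_of_nonneg_right
    (mul_le_mul_of_nonneg_right hE (by positivity)) (norm_nonneg _)) (norm_nonneg _)

end Pool.Agent.K3h64.CR
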