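import Pool.Agent.K3h20.CR.Stm2
import Pool.Agent.K3h76.CR.Nz

set_option autoImplicit false

open Set Filter Topology MeasureTheory Metric

namespace Pool.Agent.K3h64.CR

open Pool.Agent.K3h20.CR Pool.Agent.K3h76.CR

/-- the errors are of size `1 / n` -/
theorem step_est (y a rr gg c U : ℂ) (n : ℕ) (B K κ C1 : ℝ) (hn : 1 ≤ n) (hB : 1 ≤ B) (hK : 0 ≤ K)
    (ha : a ≠ 0) (hy : y ≠ 0) (hκ : κ = K / (‖a‖ * ‖y‖)) (hC1 : C1 = (‖a‖ + B) * κ ^ 2)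
    (hc : ‖c‖ ≤ K) (hU : ‖U‖ ≤ K) (h1 : κ / n ≤ 1) (h2 : 2 * C1 / n ≤ 1)
    (hr : ‖rr - 1 - a * (U / (n * (a * y))) ^ 2‖ ≤ B * ‖U / (n * (a * y))‖ ^ 3)
    (hg : ‖gg - 2 * a * (U / (n * (a * y)))‖ ≤ B * ‖U / (n * (a * y))‖ ^ 2) :
    ‖rr - 1‖ < 1 ∧ ‖rr ^ n - 1‖ ≤ 2 * C1 / n ∧
    ‖n * (a * y) * ((y + c / (n * (a * y))) * rr ^ n - y) - (U ^ 2 + c)‖ ≤
      (K * (2 * C1) + ‖a‖ * ‖y‖ * ‖y‖ * C1 ^ 2 + ‖a‖ * ‖y‖ * ‖y‖ * B * κ ^ 3) / n ∧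
    ‖(y + c / (n * (a * y))) * (n * rr ^ n * gg) - 2 * U‖ ≤
      (‖y‖ * (2 * C1) * ((2 * ‖a‖ + B) * κ) + ‖y‖ * B * κ ^ 2 +
        2 * κ * ((2 * ‖a‖ + B) * κ)) / n := by
  have hn0 : (0 : ℝ) < n := by exact_mod_cast hn
  have hnC : (n : ℂ) ≠ 0 := by exact_mod_cast hn0.ne'
  have ha0 : 0 < ‖a‖ := norm_pos_iff.2 ha
  have hy0 : 0 < ‖y‖ := norm_pos_iff.2 hy
  have hα : 0 < ‖a‖ * ‖y‖ := mul_pos ha0 hy0
  have hκ0 : 0 ≤ κ := by rw [hκ]; positivity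
  have hC0 : 0 ≤ C1 := by rw [hC1]; positivity
  obtain ⟨A, hA⟩ : ∃ A : ℂ, A = n * (a * y) := ⟨_, rfl⟩
  have hA0 : A ≠ 0 := by rw [hA]; exact mul_ne_zero hnC (mul_ne_zero ha hy)
  have hAn : ‖A‖ = n * (‖a‖ * ‖y‖) := by rw [hA]; simp
  obtain ⟨u, hu⟩ : ∃ u : ℂ, u = U / A := ⟨_, rfl⟩
  have hUu : U = A * u := by rw [hu]; field_simp
  rw [← hA, ← hu] at hr hg
  rw [← hA]
  have hs : ‖u‖ ≤ κ / n := by
    rw [hu, norm_div, hAn, hκ, div_div, mul_comm (‖a‖ * ‖y‖) (n : ℝ)]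
    gcongr
  have hs0 : 0 ≤ ‖u‖ := norm_nonneg u
  have hs1 : ‖u‖ ≤ 1 := hs.trans h1
  have hs2 : ‖u‖ ^ 2 ≤ κ ^ 2 / n ^ 2 := by rw [← div_pow]; gcongr
  have hs3 : ‖u‖ ^ 3 ≤ κ ^ 3 / n ^ 3 := by rw [← div_pow]; gcongr
  obtain ⟨ζ, hζ⟩ : ∃ ζ : ℂ, ζ = rr - 1 := ⟨_, rfl⟩
  have hrr : rr = 1 + ζ := by rw [hζ]; ring
  have hr' : ‖ζ - a * u ^ 2‖ ≤ B * ‖u‖ ^ 3 := by rw [hζ]; exact hr
  have hζn : ‖ζ‖ ≤ (‖a‖ + B) * ‖u‖ ^ 2 := by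
    have e : ζ = (ζ - a * u ^ 2) + a * u ^ 2 := by ring
    rw [e]
    refine (norm_add_le _ _).trans ?_
    rw [norm_mul, norm_pow]
    have h3 : B * ‖u‖ ^ 3 ≤ B * ‖u‖ ^ 2 := by
      have : ‖u‖ ^ 3 ≤ ‖u‖ ^ 2 := pow_le_pow_of_le_one hs0 hs1 (by norm_num)
      gcongr
    linarith
  have hnζ : n * ‖ζ‖ ≤ C1 / n := by
    calc (n : ℝ) * ‖ζ‖ ≤ n * ((‖a‖ + B) * (κ ^ 2 / n ^ 2)) := by
          gcongr
          exact hζn.trans (by gcongr)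
      _ = C1 / n := by rw [hC1]; field_simp
  have hC1n : C1 / n ≤ 1 / 2 := by
    have : 2 * C1 / n = 2 * (C1 / n) := by ring
    rw [this] at h2; linarith
  have hCn0 : 0 ≤ C1 / n := by positivity
  have hp := pow_bd2 ζ n (hnζ.trans (by linarith))
  have hp2 : ‖(1 + ζ) ^ n - 1 - n * ζ‖ ≤ (C1 / n) ^ 2 := hp.trans (by gcongr)
  have hp3 : ‖(1 + ζ) ^ n - 1‖ ≤ 2 * C1 / n := by
    have e : (1 + ζ) ^ n - 1 = ((1 + ζ) ^ n - 1 - n * ζ) + n * ζ := by ring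
    rw [e]
    refine (norm_add_le _ _).trans ?_
    have h4 : ‖(n : ℂ) * ζ‖ ≤ C1 / n := by rw [norm_mul]; simpa using hnζ
    have h5 : (C1 / n) ^ 2 ≤ C1 / n := by nlinarith
    have h6 : 2 * C1 / n = C1 / n + C1 / n := by ring
    rw [h6]
    linarith
  have hrn : ‖(1 + ζ) ^ n‖ ≤ 2 := by
    have e : (1 + ζ) ^ n = ((1 + ζ) ^ n - 1) + 1 := by ring
    rw [e]
    refine (norm_add_le _ _).trans ?_
    rw [norm_one]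
    linarith
  have hggn : ‖gg‖ ≤ (2 * ‖a‖ + B) * κ / n := by
    have e : gg = (gg - 2 * a * u) + 2 * a * u := by ring
    have h7 : ‖gg‖ ≤ B * ‖u‖ ^ 2 + 2 * ‖a‖ * ‖u‖ := by
      rw [e]
      refine (norm_add_le _ _).trans ?_
      have : ‖2 * a * u‖ = 2 * ‖a‖ * ‖u‖ := by simp
      rw [this]
      linarith
    have h8 : B * ‖u‖ ^ 2 ≤ B * ‖u‖ := by
      have : ‖u‖ ^ 2 ≤ ‖u‖ := by nlinarith
      gcongr
    calc ‖gg‖ ≤ (2 * ‖a‖ + B) * ‖u‖ := by linarith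
      _ ≤ (2 * ‖a‖ + B) * (κ / n) := by gcongr
      _ = _ := by ring
  refine ⟨?_, by rw [hrr]; exact hp3, ?_, ?_⟩
  · rw [← hζ]
    have h9 : ‖ζ‖ ≤ n * ‖ζ‖ := by
      have : (1 : ℝ) ≤ n := by exact_mod_cast hn
      nlinarith [norm_nonneg ζ]
    linarith
  · rw [hrr]
    have e : A * ((y + c / A) * (1 + ζ) ^ n - y) - (U ^ 2 + c) =
        c * ((1 + ζ) ^ n - 1) + A * y * ((1 + ζ) ^ n - 1 - n * ζ) +
          A * y * (n * (ζ - a * u ^ 2)) := by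
      have e1 : A * ((y + c / A) * (1 + ζ) ^ n - y) = (A * y + c) * (1 + ζ) ^ n - A * y := by
        field_simp
      rw [e1, hUu]
      have e2 : A * y * (n * (ζ - a * u ^ 2)) = A * y * (n * ζ) - A * (n * (a * y)) * u ^ 2 := by
        ring
      rw [e2, ← hA]
      ring
    rw [e]
    refine (norm_add₃_le).trans ?_
    have t1 : ‖c * ((1 + ζ) ^ n - 1)‖ ≤ K * (2 * C1 / n) := by
      rw [norm_mul]; gcongr
    have t2 : ‖A * y * ((1 + ζ) ^ n - 1 - n * ζ)‖ ≤ n * (‖a‖ * ‖y‖) * ‖y‖ * (C1 / n) ^ 2 := by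
      rw [norm_mul, norm_mul, hAn]; gcongr
    have t3 : ‖A * y * (n * (ζ - a * u ^ 2))‖ ≤
        n * (‖a‖ * ‖y‖) * ‖y‖ * (n * (B * (κ ^ 3 / n ^ 3))) := by
      rw [norm_mul, norm_mul, norm_mul, hAn]
      have : ‖(n : ℂ)‖ = n := by simp
      rw [this]
      gcongr
      exact hr'.trans (by gcongr)
    refine (add_le_add (add_le_add t1 t2) t3).trans (le_of_eq ?_)
    field_simp
  · rw [hrr]
    have e : (y + c / A) * (n * (1 + ζ) ^ n * gg) - 2 * U =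
        n * y * ((1 + ζ) ^ n - 1) * gg + n * y * (gg - 2 * a * u) +
          c / A * (n * ((1 + ζ) ^ n * gg)) := by
      have e2 : 2 * U = 2 * (n * (a * y)) * u := by rw [hUu, hA]; ring
      rw [e2]
      ring
    rw [e]
    refine (norm_add₃_le).trans ?_
    have hnn : ‖(n : ℂ)‖ = n := by simp
    have t1 : ‖n * y * ((1 + ζ) ^ n - 1) * gg‖ ≤
        n * ‖y‖ * (2 * C1 / n) * ((2 * ‖a‖ + B) * κ / n) := by
      rw [norm_mul, norm_mul, norm_mul, hnn]; gcongr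
    have t2 : ‖n * y * (gg - 2 * a * u)‖ ≤ n * ‖y‖ * (B * (κ ^ 2 / n ^ 2)) := by
      rw [norm_mul, norm_mul, hnn]
      gcongr
      exact hg.trans (by gcongr)
    have t3 : ‖c / A * (n * ((1 + ζ) ^ n * gg))‖ ≤
        κ / n * (n * (2 * ((2 * ‖a‖ + B) * κ / n))) := by
      rw [norm_mul, norm_mul, norm_mul, norm_div, hnn, hAn]
      have : ‖c‖ / (n * (‖a‖ * ‖y‖)) ≤ κ / n := by
        rw [hκ, div_div, mul_comm (‖a‖ * ‖y‖) (n : ℝ)]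
        gcongr
      gcongr
    refine (add_le_add (add_le_add t1 t2) t3).trans (le_of_eq ?_)
    field_simp

theorem t_step : St_step := by
  intro r g y a d B hN K η hη
  obtain ⟨hd, hB, hy, ha, hreq, hrder, hgeq⟩ := hN
  rcases lt_or_ge K 0 with hK | hK
  · exact ⟨0, fun n _ c U hc => absurd (norm_nonneg c) (by linarith)⟩
  have ha0 : 0 < ‖a‖ := norm_pos_iff.2 ha
  have hy0 : 0 < ‖y‖ := norm_pos_iff.2 hy
  obtain ⟨κ, hκ⟩ : ∃ κ : ℝ, κ = K / (‖a‖ * ‖y‖) := ⟨_, rfl⟩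
  obtain ⟨C1, hC1⟩ : ∃ C1 : ℝ, C1 = (‖a‖ + B) * κ ^ 2 := ⟨_, rfl⟩
  have hκ0 : 0 ≤ κ := by rw [hκ]; positivity
  have hC0 : 0 ≤ C1 := by rw [hC1]; positivity
  obtain ⟨E1, hE1⟩ : ∃ E1 : ℝ, E1 = K * (2 * C1) + ‖a‖ * ‖y‖ * ‖y‖ * C1 ^ 2 +
    ‖a‖ * ‖y‖ * ‖y‖ * B * κ ^ 3 := ⟨_, rfl⟩
  obtain ⟨E2, hE2⟩ : ∃ E2 : ℝ, E2 = ‖y‖ * (2 * C1) * ((2 * ‖a‖ + B) * κ) + ‖y‖ * B * κ ^ 2 +
    2 * κ * ((2 * ‖a‖ + B) * κ) := ⟨_, rfl⟩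
  have hE10 : 0 ≤ E1 := by rw [hE1]; positivity
  have hE20 : 0 ≤ E2 := by rw [hE2]; positivity
  obtain ⟨M, hM⟩ : ∃ M : ℝ, M = κ + 2 * C1 + E1 + E2 := ⟨_, rfl⟩
  obtain ⟨θ, hθ⟩ : ∃ θ : ℝ, θ = min η (min d 1) := ⟨_, rfl⟩
  have hθ0 : 0 < θ := by rw [hθ]; positivity
  have hθη : θ ≤ η := by rw [hθ]; exact min_le_left _ _
  have hθd : θ ≤ d := by rw [hθ]; exact (min_le_right _ _).trans (min_le_left _ _)
  have hθ1 : θ ≤ 1 := by rw [hθ]; exact (min_le_right _ _).trans (min_le_right _ _)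
  refine ⟨⌈M / θ⌉₊ + 1, fun n hn c U hc hU => ?_⟩
  have hn1 : 1 ≤ n := by omega
  have hn0 : (0 : ℝ) < n := by exact_mod_cast hn1
  have hnM : M / θ ≤ n := by
    calc M / θ ≤ ⌈M / θ⌉₊ := Nat.le_ceil _
      _ ≤ n := by exact_mod_cast (by omega : ⌈M / θ⌉₊ ≤ n)
  have hMn : M ≤ θ * n := by
    rw [div_le_iff₀ hθ0] at hnM; linarith
  have hdiv : ∀ t : ℝ, t ≤ M → t / n ≤ θ := fun t ht => by
    rw [div_le_iff₀ hn0]; linarith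
  have hun : ‖U / (n * (a * y))‖ ≤ d := by
    have h3 : ‖U / (n * (a * y))‖ ≤ κ / n := by
      have : ‖(n : ℂ) * (a * y)‖ = n * (‖a‖ * ‖y‖) := by simp
      rw [norm_div, this, hκ, div_div, mul_comm (‖a‖ * ‖y‖) (n : ℝ)]
      gcongr
    exact h3.trans ((hdiv κ (by linarith)).trans hθd)
  obtain ⟨s1, s2, s3, s4⟩ := step_est y a (r (y + U / (n * (a * y)))) (g (y + U / (n * (a * y))))
    c U n B K κ C1 hn1 hB hK ha hy hκ hC1 hc hU ((hdiv κ (by linarith)).trans hθ1)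
    ((hdiv (2 * C1) (by linarith)).trans hθ1) (hreq _ hun) (hgeq _ hun)
  refine ⟨hun, ?_, ?_, ?_, ?_⟩
  · intro h0
    rw [h0] at s1
    simp at s1
  · refine s3.trans ?_
    rw [← hE1]
    exact (hdiv E1 (by linarith)).trans hθη
  · refine s4.trans ?_
    rw [← hE2]
    exact (hdiv E2 (by linarith)).trans hθη
  · exact s2.trans ((hdiv (2 * C1) (by linarith)).trans hθη)

end Pool.Agent.K3h64.CR
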